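import Mathlib

set_option autoImplicit false

open Set Filter Topology

namespace Pool.Agent.Hhelper70

/-- The subset of `ℕ` coded by a point of Cantor space. -/
def toS (x : ℕ → Bool) : Set ℕ := {n | x n = true}

/-- Ideals on `ℕ` containing the finite sets, proper. -/
structure IsIdeal (I : Set (Set ℕ)) : Prop where
  down : ∀ A ∈ I, ∀ B : Set ℕ, B ⊆ A → B ∈ I
  union : ∀ A ∈ I, ∀ B ∈ I, A ∪ B ∈ I
  fin : ∀ A : Set ℕ, A.Finite → A ∈ I
  proper : (Set.univ : Set ℕ) ∉ I

/-- meagerness, in the form: the complement is residual -/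
lemma residual_compl {I : Set (Set ℕ)} (hI : IsIdeal I)
    (hm : MeasurableSet {x : ℕ → Bool | toS x ∈ I}) :
    {x : ℕ → Bool | toS x ∈ I}ᶜ ∈ residual (ℕ → Bool) := by
  obtain ⟨U, hU, hNU⟩ := hm.residualEq_isOpen
  rcases U.eq_empty_or_nonempty with rfl | ⟨x0, hx0⟩
  · filter_upwards [hNU] with x hx
    intro h
    have := (iff_of_eq hx).1 h
    exact this
  · exfalso
    -- a cylinder inside `U`
    obtain ⟨v, ⟨x1, n, rfl⟩, hxv, hv⟩ :=
      (PiNat.isTopologicalBasis_cylinders (fun _ : ℕ => Bool)).exists_subset_of_mem_open hx0 hU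
    -- the flip homeomorphism
    let τ : (ℕ → Bool) → (ℕ → Bool) := fun x i => if i < n then x i else !(x i)
    have hτc : Continuous τ := by
      refine continuous_pi fun i => ?_
      by_cases hi : i < n
      · simp only [τ, hi, if_true]; exact continuous_apply i
      · simp only [τ, hi, if_false]
        exact (continuous_of_discreteTopology (f := fun b : Bool => !b)).comp (continuous_apply i)
    have hττ : ∀ x, τ (τ x) = x := by
      intro x; funext i
      by_cases hi : i < n <;> simp [τ, hi]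
    let e : (ℕ → Bool) ≃ₜ (ℕ → Bool) :=
      { toFun := τ, invFun := τ, left_inv := hττ, right_inv := hττ,
        continuous_toFun := hτc, continuous_invFun := hτc }
    have h1 : {x : ℕ → Bool | toS x ∈ I ↔ x ∈ U} ∈ residual (ℕ → Bool) := by
      filter_upwards [hNU] with x hx
      exact iff_of_eq hx
    have h2 : {x : ℕ → Bool | toS (τ x) ∈ I ↔ τ x ∈ U} ∈ residual (ℕ → Bool) :=
      tendsto_residual_of_isOpenMap e.continuous e.isOpenMap h1
    have h3 := dense_of_mem_residual (inter_mem h1 h2)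
    obtain ⟨x, hxc, hx1, hx2⟩ := h3.inter_open_nonempty (PiNat.cylinder x1 n)
      (PiNat.isOpen_cylinder (fun _ : ℕ => Bool) x1 n) ⟨x0, hxv⟩
    have hxI : toS x ∈ I := hx1.2 (hv hxc)
    have hτx : τ x ∈ PiNat.cylinder x1 n := by
      rw [PiNat.mem_cylinder_iff] at hxc ⊢
      intro i hi
      simp only [τ, hi, if_true]
      exact hxc i hi
    have hτI : toS (τ x) ∈ I := hx2.2 (hv hτx)
    apply hI.proper
    have hf : ({i : ℕ | i < n} : Set ℕ).Finite := Set.finite_lt_nat n
    refine hI.down _ (hI.union _ (hI.union _ hxI _ hτI) _ (hI.fin _ hf)) _ ?_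
    intro i _
    by_cases hi : i < n
    · exact Or.inr hi
    · left
      cases hb : x i
      · right
        show τ x i = true
        simp [τ, hi, hb]
      · left; exact hb

/-- one step of the Jalali-Naini–Talagrand construction -/
lemma exists_pattern (D : Set (ℕ → Bool)) (hD : IsOpen D) (hd : Dense D) (n : ℕ) :
    ∃ n' > n, ∃ a : ℕ → Bool, ∀ x : ℕ → Bool, (∀ i, n ≤ i → i < n' → x i = a i) → x ∈ D := by
  classical
  have key : ∀ F : Finset (Fin n → Bool), ∃ n' > n, ∃ a : ℕ → Bool, ∀ x : ℕ → Bool,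
      (fun i : Fin n => x i) ∈ F → (∀ i, n ≤ i → i < n' → x i = a i) → x ∈ D := by
    intro F
    induction F using Finset.induction_on with
    | empty => exact ⟨n + 1, Nat.lt_succ_self n, fun _ => false, fun x hx => by simp at hx⟩
    | insert t F _ ih =>
      obtain ⟨n', hn', a, ha⟩ := ih
      -- the open set of `x` with `x|n = t`, `x = a` on `[n, n')`
      let x1 : ℕ → Bool := fun i => if h : i < n then t ⟨i, h⟩ else a i
      obtain ⟨x2, hx2c, hx2D⟩ := hd.inter_open_nonempty (PiNat.cylinder x1 n')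
        (PiNat.isOpen_cylinder (fun _ : ℕ => Bool) x1 n') ⟨x1, PiNat.self_mem_cylinder _ _⟩
      obtain ⟨v, ⟨x3, m, rfl⟩, hxv, hv⟩ :=
        (PiNat.isTopologicalBasis_cylinders (fun _ : ℕ => Bool)).exists_subset_of_mem_open hx2D hD
      refine ⟨max n' m, lt_of_lt_of_le hn' (le_max_left _ _), x2, ?_⟩
      intro x hx hxa
      rw [PiNat.mem_cylinder_iff] at hx2c
      rcases Finset.mem_insert.1 hx with h | h
      · apply hv
        rw [PiNat.mem_cylinder_iff] at hxv ⊢
        intro i hi
        rw [← hxv i hi]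
        by_cases hin : i < n
        · have e1 : x i = t ⟨i, hin⟩ := congrFun h ⟨i, hin⟩
          have e2 : x2 i = x1 i := hx2c i (hin.trans hn')
          rw [e1, e2]; simp [x1, hin]
        · exact hxa i (not_lt.1 hin) (lt_of_lt_of_le hi (le_max_right _ _))
      · apply ha x h
        intro i hni hin'
        rw [hxa i hni (lt_of_lt_of_le hin' (le_max_left _ _)), hx2c i hin']
        simp [x1, not_lt.2 hni]
  obtain ⟨n', hn', a, ha⟩ := key Finset.univ
  exact ⟨n', hn', a, fun x hx => ha x (Finset.mem_univ _) hx⟩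

/-- Jalali-Naini–Talagrand: there is an interval partition such that infinite unions of
blocks are positive. -/
lemma exists_blocks {I : Set (Set ℕ)} (hI : IsIdeal I)
    (hm : MeasurableSet {x : ℕ → Bool | toS x ∈ I}) :
    ∃ c : ℕ → ℕ, StrictMono c ∧ ∀ Z : Set ℕ, Z.Infinite →
      {i | ∃ k ∈ Z, c k ≤ i ∧ i < c (k + 1)} ∉ I := by
  classical
  have hres := residual_compl hI hm
  rw [mem_residual] at hres
  obtain ⟨t, ht, htG, htd⟩ := hres
  obtain ⟨f, hfo, rfl⟩ := (isGδ_iff_eq_iInter_nat).1 htG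
  let D : ℕ → Set (ℕ → Bool) := fun k => ⋂ i ∈ Finset.range (k + 1), f i
  have hDo : ∀ k, IsOpen (D k) := fun k => isOpen_biInter_finset fun i _ => hfo i
  have hDd : ∀ k, Dense (D k) := fun k => htd.mono (by
    intro x hx
    simp only [D, mem_iInter]
    intro i _
    exact mem_iInter.1 hx i)
  have step : ∀ (k n : ℕ), ∃ p : ℕ × (ℕ → Bool), n < p.1 ∧ ∀ x : ℕ → Bool,
      (∀ i, n ≤ i → i < p.1 → x i = p.2 i) → x ∈ D k := by
    intro k n
    obtain ⟨n', hn', a, ha⟩ := exists_pattern (D k) (hDo k) (hDd k) n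
    exact ⟨(n', a), hn', ha⟩
  choose P hP1 hP2 using step
  let c : ℕ → ℕ := fun k => Nat.rec 0 (fun k n => (P k n).1) k
  have hc : ∀ k, c (k + 1) = (P k (c k)).1 := fun k => rfl
  refine ⟨c, strictMono_nat_of_lt_succ fun k => by rw [hc]; exact hP1 k _, ?_⟩
  intro Z hZ hcon
  let A : Set ℕ := {i | ∃ k ∈ Z, c k ≤ i ∧ i < c (k + 1) ∧ (P k (c k)).2 i = true}
  have hmono : StrictMono c := strictMono_nat_of_lt_succ fun k => by rw [hc]; exact hP1 k _
  have huniq : ∀ {i k l : ℕ}, c k ≤ i → i < c (k + 1) → c l ≤ i → i < c (l + 1) → k = l := by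
    intro i k l h1 h2 h3 h4
    by_contra hne
    rcases Nat.lt_or_gt_of_ne hne with h | h
    · have : c (k + 1) ≤ c l := hmono.monotone h
      omega
    · have : c (l + 1) ≤ c k := hmono.monotone h
      omega
  have hAI : A ∈ I := hI.down _ hcon _ (by
    rintro i ⟨k, hk, h1, h2, _⟩
    exact ⟨k, hk, h1, h2⟩)
  let x : ℕ → Bool := fun i => @decide (i ∈ A) (Classical.propDecidable _)
  have hxA : toS x = A := by ext i; simp [toS, x]
  have hxD : ∀ k ∈ Z, x ∈ D k := by
    intro k hk
    apply hP2 k (c k)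
    intro i h1 h2
    rw [← hc] at h2
    cases hb : (P k (c k)).2 i
    · simp only [x, decide_eq_false_iff_not]
      rintro ⟨l, hl, h3, h4, h5⟩
      have := huniq h1 h2 h3 h4
      subst this
      rw [hb] at h5; exact Bool.false_ne_true h5
    · simp only [x, decide_eq_true_eq]
      exact ⟨k, hk, h1, h2, hb⟩
  have hxt : x ∈ ⋂ n, f n := by
    rw [mem_iInter]
    intro n
    obtain ⟨k, hk, hnk⟩ := hZ.exists_gt n
    have := hxD k hk
    simp only [D, mem_iInter] at this
    exact this n (Finset.mem_range.2 (by omega))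
  exact ht hxt (by show toS x ∈ I; rw [hxA]; exact hAI)

end Pool.Agent.Hhelper70
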