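import Mathlib
import Pool.Agent.Hhelper70.Talagrand

set_option autoImplicit false

open Set Filter Topology

namespace Pool.Agent.Hhelper70

open PiNat (res res_length res_eq_res)

/-! ### finite sequences -/

section Lists

variable {α : Type}

lemma suffix_res_iff {l : List α} {w : ℕ → α} {n : ℕ} :
    l <:+ res w n ↔ l.length ≤ n ∧ l = res w l.length := by
  induction n with
  | zero =>
    constructor
    · intro h
      have : l = [] := by simpa using h
      subst this; simp
    · rintro ⟨h1, _⟩
      have : l = [] := List.length_eq_zero_iff.1 (Nat.le_zero.1 h1)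
      subst this; simp
  | succ n ih =>
    rw [PiNat.res_succ, List.suffix_cons_iff, ih]
    constructor
    · rintro (h | ⟨h1, h2⟩)
      · have hl : l.length = n + 1 := by rw [h]; simp
        refine ⟨hl.le, ?_⟩
        rw [hl]; exact h
      · exact ⟨h1.trans (Nat.le_succ n), h2⟩
    · rintro ⟨h1, h2⟩
      rcases Nat.lt_or_ge n l.length with h3 | h3
      · left
        have hl : l.length = n + 1 := by omega
        rw [hl] at h2; exact h2
      · exact Or.inr ⟨h3, h2⟩

lemma res_suffix {w : ℕ → α} {m n : ℕ} (h : m ≤ n) : res w m <:+ res w n := by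
  rw [suffix_res_iff]; simp [h]

lemma exists_res [Inhabited α] (l : List α) : ∃ w : ℕ → α, res w l.length = l := by
  induction l with
  | nil => exact ⟨fun _ => default, rfl⟩
  | cons a l ih =>
    obtain ⟨w, hw⟩ := ih
    refine ⟨fun i => if i = l.length then a else w i, ?_⟩
    rw [List.length_cons, PiNat.res_succ]
    simp only [if_true]
    congr 1
    rw [← hw]
    rw [res_length]
    rw [res_eq_res]
    intro m hm
    rw [if_neg (by omega)]

lemma exists_limit [Inhabited α] (f : ℕ → List α) (h1 : ∀ n, f n <:+ f (n + 1))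
    (h2 : ∀ n, (f n).length < (f (n + 1)).length) :
    ∃ w : ℕ → α, ∀ n, f n = res w (f n).length := by
  have hmono : ∀ {m n : ℕ}, m ≤ n → f m <:+ f n := by
    intro m n hmn
    induction n, hmn using Nat.le_induction with
    | base => exact List.suffix_rfl
    | succ n _ ih => exact ih.trans (h1 n)
  have hlen : ∀ n, n ≤ (f n).length := by
    intro n
    induction n with
    | zero => exact Nat.zero_le _
    | succ n ih => exact lt_of_le_of_lt ih (h2 n)
  choose v hv using fun n => exists_res (f n)
  refine ⟨fun i => v (i + 1) i, fun n => ?_⟩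
  conv_lhs => rw [← hv n]
  rw [res_eq_res]
  intro i hi
  have hi' : i < (f (i + 1)).length := lt_of_lt_of_le (Nat.lt_succ_self i) (hlen (i + 1))
  rcases le_total n (i + 1) with h | h
  · have := hmono h
    rw [← hv (i + 1), suffix_res_iff] at this
    have h3 := (hv n).trans this.2
    exact res_eq_res.1 h3 hi
  · have := hmono h
    rw [← hv n, suffix_res_iff] at this
    have h3 := (hv (i + 1)).trans this.2
    exact (res_eq_res.1 h3 hi').symm

lemma res_map {β : Type} (g : α → β) (w : ℕ → α) (n : ℕ) :
    (res w n).map g = res (fun i => g (w i)) n := by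
  induction n with
  | zero => rfl
  | succ n ih => rw [PiNat.res_succ, List.map_cons, ih, PiNat.res_succ]

lemma res_zip {β : Type} (u : ℕ → α) (v : ℕ → β) (n : ℕ) :
    (res u n).zip (res v n) = res (fun i => (u i, v i)) n := by
  induction n with
  | zero => rfl
  | succ n ih => rw [PiNat.res_succ, PiNat.res_succ, List.zip_cons_cons, ih, PiNat.res_succ]

/-- the suffix of length `i` -/
def suf (p : List α) (i : ℕ) : List α := p.drop (p.length - i)

lemma suf_res (w : ℕ → α) {i n : ℕ} (h : i ≤ n) : suf (res w n) i = res w i := by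
  have h1 : suf (res w n) i <:+ res w n := List.drop_suffix _ _
  have h2 : (suf (res w n) i).length = i := by
    simp [suf]; omega
  rw [suffix_res_iff] at h1
  rw [h1.2, h2]

lemma res_of_suffix {l l' : List α} {w : ℕ → α} {n : ℕ} (hl : l <:+ l') (hl' : l' = res w n) :
    l = res w l.length := by
  rw [hl', suffix_res_iff] at hl
  exact hl.2

end Lists

/-! ### measurability helpers -/

section Meas

variable {Z : Type} [MeasurableSpace Z]

lemma m_exists {ι : Sort*} [Countable ι] {p : ι → Z → Prop} (h : ∀ i, MeasurableSet {z | p i z}) :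
    MeasurableSet {z | ∃ i, p i z} := by
  have : {z | ∃ i, p i z} = ⋃ i, {z | p i z} := by ext z; simp
  rw [this]; exact MeasurableSet.iUnion h

lemma m_forall {ι : Sort*} [Countable ι] {p : ι → Z → Prop} (h : ∀ i, MeasurableSet {z | p i z}) :
    MeasurableSet {z | ∀ i, p i z} := by
  have : {z | ∀ i, p i z} = ⋂ i, {z | p i z} := by ext z; simp
  rw [this]; exact MeasurableSet.iInter h

lemma m_and {p q : Z → Prop} (hp : MeasurableSet {z | p z}) (hq : MeasurableSet {z | q z}) :
    MeasurableSet {z | p z ∧ q z} := hp.inter hq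

lemma m_or {p q : Z → Prop} (hp : MeasurableSet {z | p z}) (hq : MeasurableSet {z | q z}) :
    MeasurableSet {z | p z ∨ q z} := hp.union hq

lemma m_not {p : Z → Prop} (hp : MeasurableSet {z | p z}) :
    MeasurableSet {z | ¬ p z} := hp.compl

lemma m_imp {p q : Z → Prop} (hp : MeasurableSet {z | p z}) (hq : MeasurableSet {z | q z}) :
    MeasurableSet {z | p z → q z} := by
  have : {z | p z → q z} = {z | ¬ p z ∨ q z} := by ext z; exact imp_iff_not_or
  rw [this]; exact m_or (m_not hp) hq

lemma m_iff {p q : Z → Prop} (hp : MeasurableSet {z | p z}) (hq : MeasurableSet {z | q z}) :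
    MeasurableSet {z | p z ↔ q z} := by
  have : {z | p z ↔ q z} = {z | (p z → q z) ∧ (q z → p z)} := by ext z; exact iff_def
  rw [this]; exact m_and (m_imp hp hq) (m_imp hq hp)

lemma m_const {p : Prop} : MeasurableSet {_z : Z | p} := MeasurableSet.const p

lemma exists_select {α : Type} [Countable α] [Nonempty α] (Φ : Z → α → Prop)
    (hΦ : ∀ a, MeasurableSet {z | Φ z a}) :
    ∃ s : Z → α, (∀ a, MeasurableSet {z | s z = a}) ∧ ∀ z, (∃ a, Φ z a) → Φ z (s z) := by
  classical
  obtain ⟨e, he⟩ := exists_surjective_nat α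
  refine ⟨fun z => if h : ∃ n, Φ z (e n) then e (Nat.find h) else e 0, ?_, ?_⟩
  · intro a
    have : {z | (if h : ∃ n, Φ z (e n) then e (Nat.find h) else e 0) = a} =
        {z | (∃ n, (Φ z (e n) ∧ (∀ k, k < n → ¬ Φ z (e k))) ∧ e n = a) ∨
          ((∀ n, ¬ Φ z (e n)) ∧ e 0 = a)} := by
      ext z
      constructor
      · intro h
        by_cases hz : ∃ n, Φ z (e n)
        · left
          refine ⟨Nat.find hz, ⟨Nat.find_spec hz, fun k hk => Nat.find_min hz hk⟩, ?_⟩
          have h' : (if h : ∃ n, Φ z (e n) then e (Nat.find h) else e 0) = a := h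
          rwa [dif_pos hz] at h'
        · right
          have h' : (if h : ∃ n, Φ z (e n) then e (Nat.find h) else e 0) = a := h
          rw [dif_neg hz] at h'
          exact ⟨fun n hn => hz ⟨n, hn⟩, h'⟩
      · intro h
        show (if h : ∃ n, Φ z (e n) then e (Nat.find h) else e 0) = a
        rcases h with ⟨n, ⟨h1, h2⟩, h3⟩ | ⟨h1, h2⟩
        · have hz : ∃ n, Φ z (e n) := ⟨n, h1⟩
          rw [dif_pos hz]
          have : Nat.find hz = n := by
            rw [Nat.find_eq_iff]
            exact ⟨h1, fun k hk => h2 k hk⟩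
          rw [this, h3]
        · rw [dif_neg (by rintro ⟨n, hn⟩; exact h1 n hn)]
          exact h2
    rw [this]
    refine m_or (m_exists fun n => m_and (m_and (hΦ _) (m_forall fun k => m_imp m_const
      (m_not (hΦ _)))) m_const) (m_and (m_forall fun n => m_not (hΦ _)) m_const)
  · rintro z ⟨a, ha⟩
    obtain ⟨n, rfl⟩ := he a
    have hz : ∃ n, Φ z (e n) := ⟨n, ha⟩
    simp only [dif_pos hz]
    exact Nat.find_spec hz

end Meas

end Pool.Agent.Hhelper70
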