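import Mathlib
import Pool.Agent.Hhelper70.Core

set_option autoImplicit false

open Set Filter Topology

namespace Pool.Agent.Hhelper70

open PiNat (res res_length res_eq_res)

/-- nodes of the tree of attempts to build `u, y` with `φ y ⊆ χ u` -/
def InT (φ χ : (ℕ → ℕ) → (ℕ → Bool)) (s : List (ℕ × ℕ)) : Prop :=
  ∃ w : ℕ → ℕ × ℕ, res w s.length = s ∧
    ∀ i < s.length, φ (fun n => (w n).2) i = true → χ (fun n => (w n).1) i = true

def RelT (φ χ : (ℕ → ℕ) → (ℕ → Bool)) (s' s : {s : List (ℕ × ℕ) // InT φ χ s}) : Prop :=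
  s.1 <:+ s'.1 ∧ s.1.length < s'.1.length

lemma relT_wf {φ χ : (ℕ → ℕ) → (ℕ → Bool)} (hφ : Continuous φ) (hχ : Continuous χ)
    (hno : ¬ ∃ y u : ℕ → ℕ, ∀ i, φ y i = true → χ u i = true) :
    WellFounded (RelT φ χ) := by
  rw [wellFounded_iff_isEmpty_descending_chain]
  refine ⟨fun ⟨f, hf⟩ => hno ?_⟩
  obtain ⟨w, hw⟩ := exists_limit (fun n => (f n).1) (fun n => (hf n).1) (fun n => (hf n).2)
  have hlen : ∀ n, n ≤ (f n).1.length := by
    intro n
    induction n with
    | zero => exact Nat.zero_le _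
    | succ n ih => exact lt_of_le_of_lt ih (hf n).2
  refine ⟨fun n => (w n).2, fun n => (w n).1, fun i hi => ?_⟩
  -- continuity
  have hc1 : Continuous (fun w : ℕ → ℕ × ℕ => φ (fun n => (w n).2) i) :=
    (continuous_apply i).comp (hφ.comp (continuous_pi fun n =>
      continuous_snd.comp (continuous_apply n)))
  have hc2 : Continuous (fun w : ℕ → ℕ × ℕ => χ (fun n => (w n).1) i) :=
    (continuous_apply i).comp (hχ.comp (continuous_pi fun n =>
      continuous_fst.comp (continuous_apply n)))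
  have ho : IsOpen {v : ℕ → ℕ × ℕ | φ (fun n => (v n).2) i = φ (fun n => (w n).2) i ∧
      χ (fun n => (v n).1) i = χ (fun n => (w n).1) i} :=
    ((isOpen_discrete ({φ (fun n => (w n).2) i} : Set Bool)).preimage hc1).inter
      ((isOpen_discrete ({χ (fun n => (w n).1) i} : Set Bool)).preimage hc2)
  obtain ⟨v, ⟨x1, n, rfl⟩, hxv, hv⟩ :=
    (PiNat.isTopologicalBasis_cylinders (fun _ : ℕ => ℕ × ℕ)).exists_subset_of_mem_open
      (⟨rfl, rfl⟩ : w ∈ {v : ℕ → ℕ × ℕ | φ (fun n => (v n).2) i = φ (fun n => (w n).2) i ∧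
      χ (fun n => (v n).1) i = χ (fun n => (w n).1) i}) ho
  set k := max n (i + 1) with hk
  obtain ⟨w', hw', hin⟩ := (f k).2
  have hkl := hlen k
  have heq : ∀ m < (f k).1.length, w' m = w m := by
    have : res w' (f k).1.length = res w (f k).1.length := by rw [hw', ← hw k]
    exact fun m hm => res_eq_res.1 this hm
  have hw'c : w' ∈ PiNat.cylinder x1 n := by
    rw [PiNat.mem_cylinder_iff] at hxv ⊢
    intro m hm
    rw [← hxv m hm]
    exact heq m (by omega)
  obtain ⟨e1, e2⟩ := hv hw'c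
  rw [← e2]
  apply hin i (by omega)
  rw [e1]; exact hi

lemma InT.suffix {φ χ : (ℕ → ℕ) → (ℕ → Bool)} {s s' : List (ℕ × ℕ)} (h : InT φ χ s')
    (hs : s <:+ s') : InT φ χ s := by
  obtain ⟨w, hw, hin⟩ := h
  have := hs
  rw [← hw, suffix_res_iff] at this
  refine ⟨w, this.2.symm, fun i hi => hin i (by omega)⟩

section Main

variable (φ χ : (ℕ → ℕ) → (ℕ → Bool))

/-- `Θ z x`: the node `x = (p, y)` is compatible with the labelling `L z`. -/
def Th (L : List Bool → Prop) (x : List (Bool × ℕ)) : Prop :=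
  ∃ y : ℕ → ℕ, res y x.length = x.map Prod.snd ∧
    ∀ i < x.length, (φ y i = true ↔ L (suf (x.map Prod.fst) i))

/-- nodes of rank at least `γ` -/
noncomputable def G (L : List Bool → Prop) (γ : Ordinal.{0}) (x : List (Bool × ℕ)) : Prop :=
  Th φ L x ∧ ∀ β, β < γ → ∀ k : ℕ, ∃ x', x <:+ x' ∧ k ≤ x'.length ∧ G L β x'
termination_by γ

lemma G_iff (L : List Bool → Prop) (γ : Ordinal.{0}) (x : List (Bool × ℕ)) :
    G φ L γ x ↔ Th φ L x ∧ ∀ β, β < γ → ∀ k : ℕ, ∃ x', x <:+ x' ∧ k ≤ x'.length ∧ G φ L β x' := by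
  rw [G]

lemma G.mono {L : List Bool → Prop} {γ γ' : Ordinal.{0}} {x : List (Bool × ℕ)}
    (h : G φ L γ x) (hle : γ' ≤ γ) : G φ L γ' x := by
  rw [G_iff] at h ⊢
  exact ⟨h.1, fun β hβ => h.2 β (lt_of_lt_of_le hβ hle)⟩

variable {Z : Type} [MeasurableSpace Z] (L : Z → List Bool → Prop)

lemma Th_meas (hL : ∀ q, MeasurableSet {z | L z q}) (x : List (Bool × ℕ)) :
    MeasurableSet {z | Th φ (L z) x} := by
  classical
  have : {z | Th φ (L z) x} = {z | ∃ a : Finset ℕ,
      (∃ y : ℕ → ℕ, res y x.length = x.map Prod.snd ∧ ∀ i < x.length, (φ y i = true ↔ i ∈ a)) ∧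
      ∀ i, i < x.length → (i ∈ a ↔ L z (suf (x.map Prod.fst) i))} := by
    ext z
    constructor
    · rintro ⟨y, hy, h⟩
      refine ⟨(Finset.range x.length).filter (fun i => φ y i = true), ⟨y, hy, ?_⟩, ?_⟩
      · intro i hi; simp [hi]
      · intro i hi
        rw [← h i hi]; simp [hi]
    · rintro ⟨a, ⟨y, hy, h⟩, h'⟩
      exact ⟨y, hy, fun i hi => (h i hi).trans (h' i hi)⟩
  rw [this]
  exact m_exists fun a => m_and m_const (m_forall fun i => m_imp m_const (m_iff m_const (hL _)))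

lemma G_meas (hL : ∀ q, MeasurableSet {z | L z q}) (γ : Ordinal.{0}) :
    (Set.Iio γ).Countable → ∀ x, MeasurableSet {z | G φ (L z) γ x} := by
  induction γ using WellFoundedLT.induction with
  | ind γ ih =>
    intro hγ x
    have : {z | G φ (L z) γ x} = {z | Th φ (L z) x} ∩ ⋂ β ∈ Set.Iio γ,
        {z | ∀ k : ℕ, ∃ x', x <:+ x' ∧ k ≤ x'.length ∧ G φ (L z) β x'} := by
      ext z
      simp only [mem_inter_iff, mem_iInter]
      exact G_iff φ (L z) γ x
    rw [this]
    refine (Th_meas φ L hL x).inter (MeasurableSet.biInter hγ fun β hβ => ?_)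
    refine m_forall fun k => m_exists fun x' => m_and m_const (m_and m_const ?_)
    exact ih β hβ (hγ.mono (Set.Iio_subset_Iio (le_of_lt hβ))) x'

end Main

end Pool.Agent.Hhelper70
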