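import Mathlib
import Pool.Agent.Hhelper70.Rank

set_option autoImplicit false

open Set Filter Topology

namespace Pool.Agent.Hhelper70

open PiNat (res res_length res_eq_res)

section Main

variable (φ χ : (ℕ → ℕ) → (ℕ → Bool)) [IsWellFounded _ (RelT φ χ)]
variable {Z : Type} [MeasurableSpace Z] (L : Z → List Bool → Prop)

/-- the inductive statement -/
def Good (γ : Ordinal.{0}) (x : List (Bool × ℕ)) (R : Z → Set ℕ) (ζ : ℕ → Z → ℕ → Bool) : Prop :=
  Measurable R ∧ (∀ i, Measurable (ζ i)) ∧ ∀ z, G φ (L z) γ x →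
    (∀ m ∈ R z, ∃ q, q.length = m ∧ L z q ∧
      (q <:+ x.map Prod.fst ∨ x.map Prod.fst <:+ q)) ∧
    (∀ b : ℕ → Bool, (∀ i, ζ i z ≠ b) → {m | m ∈ R z ∧ L z (res b m)}.Finite) ∧
    (∀ u : ℕ → ℕ, (∀ m ∈ R z, χ u m = true) →
      ∃ ht : InT φ χ ((res u x.length).zip (x.map Prod.snd)),
        γ ≤ IsWellFounded.rank (RelT φ χ) ⟨_, ht⟩)

lemma suffix_extend {α : Type} {q p : List α} (h : q <:+ p) (hl : q.length < p.length) :
    ∃ b, (b :: q) <:+ p := by
  obtain ⟨l, rfl⟩ := h
  rcases List.eq_nil_or_concat l with rfl | ⟨l', b, rfl⟩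
  · simp at hl
  · exact ⟨b, l', by simp⟩

lemma good_zero (hL : ∀ q, MeasurableSet {z | L z q}) (x : List (Bool × ℕ)) :
    ∃ (R : Z → Set ℕ) (ζ : ℕ → Z → ℕ → Bool), Good φ χ L 0 x R ζ := by
  refine ⟨fun z => {m | m < x.length ∧ L z (suf (x.map Prod.fst) m)}, fun _ _ _ => false,
    ?_, fun i => measurable_const, ?_⟩
  · refine measurable_set_iff.2 fun m => ?_
    rw [← measurableSet_setOfPred]
    exact m_and m_const (hL _)
  · intro z hz
    refine ⟨?_, ?_, ?_⟩
    · rintro m ⟨hm, hLm⟩
      refine ⟨suf (x.map Prod.fst) m, ?_, hLm, Or.inl (List.drop_suffix _ _)⟩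
      simp [suf]; omega
    · intro b _
      exact (Set.finite_lt_nat x.length).subset (fun m hm => hm.1.1)
    · intro u hu
      refine ⟨?_, bot_le⟩
      rw [G_iff] at hz
      obtain ⟨⟨y, hy, h⟩, _⟩ := hz
      refine ⟨fun i => (u i, y i), ?_, ?_⟩
      · have hlen : ((res u x.length).zip (x.map Prod.snd)).length = x.length := by simp
        rw [hlen, ← res_zip, hy]
      · intro i hi hφi
        have hlen : ((res u x.length).zip (x.map Prod.snd)).length = x.length := by simp
        rw [hlen] at hi
        exact hu i ⟨hi, (h i hi).1 hφi⟩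

theorem good_ind (hL : ∀ q, MeasurableSet {z | L z q})
    (hLu : ∀ z q q', L z q → L z q' → q.length = q'.length → q = q') (γ : Ordinal.{0}) :
    (Set.Iio γ).Countable → ∀ x : List (Bool × ℕ),
      ∃ (R : Z → Set ℕ) (ζ : ℕ → Z → ℕ → Bool), Good φ χ L γ x R ζ := by
  classical
  induction γ using WellFoundedLT.induction with
  | ind γ ih =>
  intro hγ x
  rcases eq_or_ne γ 0 with rfl | hγ0
  · exact good_zero φ χ L hL x
  have hpos : 0 < γ := bot_lt_iff_ne_bot.2 hγ0
  obtain ⟨e, he⟩ := hγ.exists_eq_range ⟨0, hpos⟩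
  -- a cofinal nondecreasing sequence
  let g : ℕ → Ordinal.{0} := fun k => Nat.rec (e 0) (fun k o => max o (e (k + 1))) k
  have hg1 : ∀ k, g (k + 1) = max (g k) (e (k + 1)) := fun k => rfl
  have heγ : ∀ k, e k < γ := fun k => by
    have : e k ∈ Set.Iio γ := by rw [he]; exact ⟨k, rfl⟩
    exact this
  have hgγ : ∀ k, g k < γ := by
    intro k
    induction k with
    | zero => exact heγ 0
    | succ k ihk => rw [hg1]; exact max_lt ihk (heγ _)
  have hgm : Monotone g := monotone_nat_of_le_succ fun k => by rw [hg1]; exact le_max_left _ _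
  have hge : ∀ k, e k ≤ g k := by
    intro k
    cases k with
    | zero => exact le_rfl
    | succ k => rw [hg1]; exact le_max_right _ _
  have hcof : ∀ β < γ, ∃ K, ∀ k ≥ K, β ≤ g k := by
    intro β hβ
    have : β ∈ Set.range e := by rw [← he]; exact hβ
    obtain ⟨K, rfl⟩ := this
    exact ⟨K, fun k hk => (hge K).trans (hgm hk)⟩
  -- induction hypothesis
  have ih' : ∀ (k : ℕ) (x' : List (Bool × ℕ)), ∃ P : (Z → Set ℕ) × (ℕ → Z → ℕ → Bool),
      Good φ χ L (g k) x' P.1 P.2 := by
    intro k x'
    obtain ⟨R, ζ, h⟩ := ih (g k) (hgγ k) (hγ.mono (Set.Iio_subset_Iio (hgγ k).le)) x'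
    exact ⟨(R, ζ), h⟩
  choose P hP using ih'
  -- limit branch
  let Q : Z → List Bool → Prop := fun z q => ∀ β ∈ Set.Iio γ, ∀ k : ℕ, ∃ x',
    x <:+ x' ∧ k ≤ x'.length ∧ G φ (L z) β x' ∧ q <:+ x'.map Prod.fst
  have hQm : ∀ q, MeasurableSet {z | Q z q} := by
    intro q
    have : {z | Q z q} = ⋂ β ∈ Set.Iio γ, {z | ∀ k : ℕ, ∃ x',
        x <:+ x' ∧ k ≤ x'.length ∧ G φ (L z) β x' ∧ q <:+ x'.map Prod.fst} := by
      ext z; simp only [mem_iInter]; rfl
    rw [this]
    refine MeasurableSet.biInter hγ fun β hβ => ?_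
    refine m_forall fun k => m_exists fun x' => m_and m_const (m_and m_const (m_and ?_ m_const))
    exact G_meas φ L hL β (hγ.mono (Set.Iio_subset_Iio (le_of_lt hβ))) x'
  have hQ0 : ∀ z, G φ (L z) γ x → Q z [] := by
    intro z hz β hβ k
    rw [G_iff] at hz
    obtain ⟨x', h1, h2, h3⟩ := hz.2 β hβ k
    exact ⟨x', h1, h2, h3, List.nil_suffix⟩
  have hQs : ∀ z q, Q z q → Q z (false :: q) ∨ Q z (true :: q) := by
    intro z q hq
    by_contra hcon
    rw [not_or] at hcon
    obtain ⟨h0, h1⟩ := hcon
    have h0' : ∃ β ∈ Set.Iio γ, ∃ k : ℕ, ∀ x', x <:+ x' → k ≤ x'.length → G φ (L z) β x' →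
        ¬ (false :: q) <:+ x'.map Prod.fst := by
      by_contra h
      apply h0
      intro β hβ k
      by_contra h'
      exact h ⟨β, hβ, k, fun x' a1 a2 a3 a4 => h' ⟨x', a1, a2, a3, a4⟩⟩
    have h1' : ∃ β ∈ Set.Iio γ, ∃ k : ℕ, ∀ x', x <:+ x' → k ≤ x'.length → G φ (L z) β x' →
        ¬ (true :: q) <:+ x'.map Prod.fst := by
      by_contra h
      apply h1
      intro β hβ k
      by_contra h'
      exact h ⟨β, hβ, k, fun x' a1 a2 a3 a4 => h' ⟨x', a1, a2, a3, a4⟩⟩
    obtain ⟨β0, hβ0, k0, H0⟩ := h0'
    obtain ⟨β1, hβ1, k1, H1⟩ := h1'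
    obtain ⟨x', a1, a2, a3, a4⟩ := hq (max β0 β1)
      (show max β0 β1 < γ from max_lt hβ0 hβ1) (max (max k0 k1) (q.length + 1))
    obtain ⟨b, hb⟩ := suffix_extend a4 (by rw [List.length_map]; omega)
    cases b
    · exact H0 x' a1 (by omega) (G.mono φ a3 (le_max_left _ _)) hb
    · exact H1 x' a1 (by omega) (G.mono φ a3 (le_max_right _ _)) hb
  let path : Z → ℕ → List Bool := fun z n =>
    Nat.rec [] (fun _ l => (if Q z (false :: l) then false else true) :: l) n
  have hpath : ∀ z n, path z (n + 1) =
    (if Q z (false :: path z n) then false else true) :: path z n := fun z n => rfl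
  let ζs : Z → ℕ → Bool := fun z n => if Q z (false :: path z n) then false else true
  have hres : ∀ z n, res (ζs z) n = path z n := by
    intro z n
    induction n with
    | zero => rfl
    | succ n ihn => rw [PiNat.res_succ, ihn]
  have hQp : ∀ z, G φ (L z) γ x → ∀ n, Q z (path z n) := by
    intro z hz n
    induction n with
    | zero => exact hQ0 z hz
    | succ n ihn =>
      rw [hpath]
      split_ifs with h
      · exact h
      · exact (hQs z _ ihn).resolve_left h
  have hpm : ∀ n q, MeasurableSet {z | path z n = q} := by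
    intro n
    induction n with
    | zero => intro q; exact m_const (p := ([] : List Bool) = q)
    | succ n ihn =>
      intro q
      have : {z | path z (n + 1) = q} = {z | ∃ l : List Bool, path z n = l ∧
          ((Q z (false :: l) ∧ false :: l = q) ∨ (¬ Q z (false :: l) ∧ true :: l = q))} := by
        ext z
        constructor
        · intro h
          have h' : path z (n + 1) = q := h
          rw [hpath] at h'
          refine ⟨path z n, rfl, ?_⟩
          by_cases hc : Q z (false :: path z n)
          · left; rw [if_pos hc] at h'; exact ⟨hc, h'⟩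
          · right; rw [if_neg hc] at h'; exact ⟨hc, h'⟩
        · rintro ⟨l, rfl, h | h⟩
          · show path z (n + 1) = q
            rw [hpath, if_pos h.1]; exact h.2
          · show path z (n + 1) = q
            rw [hpath, if_neg h.1]; exact h.2
      rw [this]
      exact m_exists fun l => m_and (ihn l) (m_or (m_and (hQm _) m_const)
        (m_and (m_not (hQm _)) m_const))
  have hζsm : Measurable ζs := by
    rw [measurable_pi_iff]
    intro n
    apply measurable_to_bool
    have : (fun z => ζs z n) ⁻¹' {true} = {z | ∃ l, path z n = l ∧ ¬ Q z (false :: l)} := by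
      ext z
      simp only [mem_preimage, mem_singleton_iff]
      constructor
      · intro h
        refine ⟨path z n, rfl, fun hc => ?_⟩
        simp only [ζs, if_pos hc] at h
        exact Bool.false_ne_true h
      · rintro ⟨l, rfl, h⟩
        simp only [ζs, if_neg h]
    rw [this]
    exact m_exists fun l => m_and (hpm n l) (m_not (hQm _))
  -- selection of the nodes
  let Φ : ℕ → Z → List (Bool × ℕ) → Prop := fun k z x' => x <:+ x' ∧ k ≤ x'.length ∧
    x.length < x'.length ∧ G φ (L z) (g k) x' ∧ path z k <:+ x'.map Prod.fst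
  have hΦm : ∀ k x', MeasurableSet {z | Φ k z x'} := by
    intro k x'
    refine m_and m_const (m_and m_const (m_and m_const (m_and ?_ ?_)))
    · exact G_meas φ L hL (g k) (hγ.mono (Set.Iio_subset_Iio (hgγ k).le)) x'
    · have : {z | path z k <:+ x'.map Prod.fst} =
          {z | ∃ l, path z k = l ∧ l <:+ x'.map Prod.fst} := by
        ext z
        constructor
        · intro h; exact ⟨_, rfl, h⟩
        · rintro ⟨l, rfl, h⟩; exact h
      rw [this]
      exact m_exists fun l => m_and (hpm k l) m_const
  have hΦe : ∀ k z, G φ (L z) γ x → ∃ x', Φ k z x' := by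
    intro k z hz
    obtain ⟨x', a1, a2, a3, a4⟩ := hQp z hz k (g k) (hgγ k) (max k (x.length + 1))
    exact ⟨x', a1, by omega, by omega, a3, a4⟩
  choose s hs1 hs2 using fun k => exists_select (Φ k) (hΦm k)
  refine ⟨fun z => {m | ∃ k, m ∈ (P k (s k z)).1 z},
    fun i z => Nat.casesOn i (ζs z) (fun i => (P (Nat.unpair i).1 (s (Nat.unpair i).1 z)).2
      (Nat.unpair i).2 z), ?_, ?_, ?_⟩
  · -- measurability of `R`
    refine measurable_set_iff.2 fun m => ?_
    rw [← measurableSet_setOfPred]
    have : {z | m ∈ {m | ∃ k, m ∈ (P k (s k z)).1 z}} =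
        {z | ∃ k, ∃ x', s k z = x' ∧ m ∈ (P k x').1 z} := by
      ext z
      constructor
      · rintro ⟨k, hk⟩; exact ⟨k, _, rfl, hk⟩
      · rintro ⟨k, x', rfl, hk⟩; exact ⟨k, hk⟩
    rw [this]
    refine m_exists fun k => m_exists fun x' => m_and (hs1 k x') ?_
    exact measurableSet_setOfPred.2 (measurable_set_iff.1 (hP k x').1 m)
  · intro i
    cases i with
    | zero => exact hζsm
    | succ i =>
      rw [measurable_pi_iff]
      intro n
      apply measurable_to_bool
      have : (fun z => (P (Nat.unpair i).1 (s (Nat.unpair i).1 z)).2 (Nat.unpair i).2 z n) ⁻¹'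
          {true} = {z | ∃ x', s (Nat.unpair i).1 z = x' ∧
            (P (Nat.unpair i).1 x').2 (Nat.unpair i).2 z n = true} := by
        ext z
        constructor
        · intro h; exact ⟨_, rfl, h⟩
        · rintro ⟨x', rfl, h⟩; exact h
      show MeasurableSet ((fun z => (P (Nat.unpair i).1 (s (Nat.unpair i).1 z)).2
        (Nat.unpair i).2 z n) ⁻¹' {true})
      rw [this]
      refine m_exists fun x' => m_and (hs1 _ x') ?_
      have hmz := (hP (Nat.unpair i).1 x').2.1 (Nat.unpair i).2
      exact (measurable_pi_iff.1 hmz n) (measurableSet_singleton true)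
  · intro z hz
    have hsz : ∀ k, Φ k z (s k z) := fun k => hs2 k z (hΦe k z hz)
    have hGk : ∀ k, G φ (L z) (g k) (s k z) := fun k => (hsz k).2.2.2.1
    have hprop := fun k => (hP k (s k z)).2.2 z (hGk k)
    refine ⟨?_, ?_, ?_⟩
    · rintro m ⟨k, hk⟩
      obtain ⟨q, hq1, hq2, hq3⟩ := (hprop k).1 m hk
      refine ⟨q, hq1, hq2, ?_⟩
      have hxs : x.map Prod.fst <:+ (s k z).map Prod.fst := by
        obtain ⟨l, hl⟩ := (hsz k).1
        exact ⟨l.map Prod.fst, by rw [← List.map_append, hl]⟩
      rcases hq3 with h | h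
      · exact List.suffix_or_suffix_of_suffix h hxs
      · exact Or.inr (hxs.trans h)
    · intro b hb
      have hb0 : ζs z ≠ b := hb 0
      obtain ⟨j, hj⟩ : ∃ j, ζs z j ≠ b j := by
        by_contra h
        push Not at h
        exact hb0 (funext h)
      have hbk : ∀ k i, (P k (s k z)).2 i z ≠ b := by
        intro k i
        have := hb (Nat.pair k i + 1)
        simpa using this
      have hsub : {m | (∃ k, m ∈ (P k (s k z)).1 z) ∧ L z (res b m)} ⊆
          {m | m ≤ j} ∪ ⋃ k ∈ Finset.range (j + 1),
            {m | m ∈ (P k (s k z)).1 z ∧ L z (res b m)} := by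
        rintro m ⟨⟨k, hk⟩, hLm⟩
        by_cases hkj : k ≤ j
        · right
          simp only [mem_iUnion]
          exact ⟨k, Finset.mem_range.2 (by omega), hk, hLm⟩
        · left
          push Not at hkj
          obtain ⟨q, hq1, hq2, hq3⟩ := (hprop k).1 m hk
          have hq : q = res b m := hLu z q _ hq2 hLm (by rw [hq1, res_length])
          subst hq
          have hpk : res (ζs z) k <:+ (s k z).map Prod.fst := by
            rw [hres]; exact (hsz k).2.2.2.2
          -- `res (ζs z) k` is not a suffix of `res b m`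
          have hnot : ¬ res (ζs z) k <:+ res b m := by
            intro h
            rw [suffix_res_iff] at h
            have h2 := h.2
            rw [res_length] at h2
            exact hj (res_eq_res.1 h2 hkj)
          rcases hq3 with h | h
          · rcases List.suffix_or_suffix_of_suffix h hpk with h' | h'
            · rw [suffix_res_iff] at h'
              have h2 := h'.2
              rw [res_length] at h2
              show m ≤ j
              by_contra hmj
              push Not at hmj
              exact hj (res_eq_res.1 h2 hmj).symm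
            · exact absurd h' hnot
          · exact absurd (hpk.trans h) hnot
      refine Set.Finite.subset ?_ hsub
      refine (Set.finite_le_nat j).union ?_
      refine Set.Finite.biUnion (Finset.finite_toSet _) fun k _ => ?_
      exact (hprop k).2.1 b (hbk k)
    · intro u hu
      have hk : ∀ k, ∃ ht : InT φ χ ((res u (s k z).length).zip ((s k z).map Prod.snd)),
          g k ≤ IsWellFounded.rank (RelT φ χ) ⟨_, ht⟩ :=
        fun k => (hprop k).2.2 u (fun m hm => hu m ⟨k, hm⟩)
      have hsuf : ∀ k, (res u x.length).zip (x.map Prod.snd) <:+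
          (res u (s k z).length).zip ((s k z).map Prod.snd) := by
        intro k
        obtain ⟨w, hw⟩ := exists_res (s k z)
        have h1 := (hsz k).1
        rw [← hw, suffix_res_iff] at h1
        obtain ⟨h1, h2⟩ := h1
        have e1 : (s k z).map Prod.snd = res (fun i => (w i).2) (s k z).length := by
          conv_lhs => rw [← hw]
          rw [res_map]
        have e2 : x.map Prod.snd = res (fun i => (w i).2) x.length := by
          conv_lhs => rw [h2]
          rw [res_map]
        rw [e1, e2, res_zip, res_zip]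
        exact res_suffix h1
      obtain ⟨ht0, _⟩ := hk 0
      have ht : InT φ χ ((res u x.length).zip (x.map Prod.snd)) := ht0.suffix (hsuf 0)
      refine ⟨ht, ?_⟩
      refine le_of_forall_lt fun β hβ => ?_
      obtain ⟨K, hK⟩ := hcof β hβ
      obtain ⟨htK, hrK⟩ := hk K
      refine lt_of_le_of_lt ((hK K le_rfl).trans hrK) ?_
      apply IsWellFounded.rank_lt_of_rel
      refine ⟨hsuf K, ?_⟩
      have := (hsz K).2.2.1
      simp only [List.length_zip, List.length_map, res_length, min_self]
      exact this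

end Main

end Pool.Agent.Hhelper70
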