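import Mathlib
import Pool.Agent.Hhelper70.MainInd

set_option autoImplicit false

open Set Filter Topology

namespace Pool.Agent.Hhelper70

open PiNat (res res_length res_eq_res)

lemma exists_param {S : Set (ℕ → Bool)} (hS : MeasurableSet S) (hne : S.Nonempty) :
    ∃ f : (ℕ → ℕ) → (ℕ → Bool), Continuous f ∧ range f = S := by
  have hpol : PolishSpace (ℕ → Bool) :=
    { toSecondCountableTopology := inferInstance
      toIsCompletelyMetrizableSpace := inferInstance }
  have h := hS.analyticSet
  rw [MeasureTheory.AnalyticSet] at h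
  rcases h with h | h
  · exact absurd h hne.ne_empty
  · exact h

lemma measurable_mem_ideal {I : Set (Set ℕ)}
    (hm : MeasurableSet {x : ℕ → Bool | toS x ∈ I}) : MeasurableSet I := by
  classical
  let f : Set ℕ → (ℕ → Bool) := fun A n => decide (n ∈ A)
  have hf : Measurable f := by
    rw [measurable_pi_iff]
    intro n
    apply measurable_to_bool
    have : (fun A : Set ℕ => f A n) ⁻¹' {true} = {A : Set ℕ | n ∈ A} := by
      ext A; simp [f]
    rw [this]
    exact measurableSet_mem n
  have : I = f ⁻¹' {x : ℕ → Bool | toS x ∈ I} := by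
    ext A
    have : toS (f A) = A := by ext n; simp [toS, f]
    simp only [mem_preimage]
    show A ∈ I ↔ toS (f A) ∈ I
    rw [this]
  rw [this]
  exact hf hm

theorem core {I : Set (Set ℕ)} (hI : IsIdeal I)
    (hm : MeasurableSet {x : ℕ → Bool | toS x ∈ I})
    {Z : Type} [MeasurableSpace Z] (L : Z → List Bool → Prop)
    (hL : ∀ q, MeasurableSet {z | L z q})
    (hLu : ∀ z q q', L z q → L z q' → q.length = q'.length → q = q')
    (W : Z → Set ℕ) (hW : Measurable W) (hWI : ∀ z, W z ∉ I)
    (hLW : ∀ z q, L z q → q.length ∈ W z) :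
    ∃ (D : Set Z) (R : Z → Set ℕ), MeasurableSet D ∧ Measurable R ∧
      (∀ z ∈ D, R z ∉ I ∧ R z ⊆ W z ∧ ∀ b : ℕ → Bool, {m | m ∈ R z ∧ L z (res b m)} ∈ I) ∧
      (∀ z ∉ D, ∃ b : ℕ → Bool, {m | L z (res b m)} ∉ I) := by
  classical
  -- parametrisations of `I` and its complement
  obtain ⟨χ, hχc, hχ⟩ := exists_param hm ⟨fun _ => false, by
    show toS (fun _ => false) ∈ I
    have : toS (fun _ => false) = ∅ := by ext n; simp [toS]
    rw [this]; exact hI.fin _ Set.finite_empty⟩
  obtain ⟨φ, hφc, hφ⟩ := exists_param hm.compl ⟨fun _ => true, by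
    show ¬ toS (fun _ => true) ∈ I
    have : toS (fun _ => true) = Set.univ := by ext n; simp [toS]
    rw [this]; exact hI.proper⟩
  have hφI : ∀ y, toS (φ y) ∉ I := by
    intro y
    have : φ y ∈ {x : ℕ → Bool | toS x ∈ I}ᶜ := by rw [← hφ]; exact ⟨y, rfl⟩
    exact this
  have hχI : ∀ u, toS (χ u) ∈ I := by
    intro u
    have : χ u ∈ {x : ℕ → Bool | toS x ∈ I} := by rw [← hχ]; exact ⟨u, rfl⟩
    exact this
  have hφs : ∀ A : Set ℕ, A ∉ I → ∃ y, ∀ i, φ y i = true ↔ i ∈ A := by
    intro A hA
    have : (fun n => decide (n ∈ A)) ∈ {x : ℕ → Bool | toS x ∈ I}ᶜ := by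
      show ¬ toS (fun n => decide (n ∈ A)) ∈ I
      have : toS (fun n => decide (n ∈ A)) = A := by ext n; simp [toS]
      rw [this]; exact hA
    rw [← hφ] at this
    obtain ⟨y, hy⟩ := this
    exact ⟨y, fun i => by rw [hy]; simp⟩
  have hχs : ∀ A : Set ℕ, A ∈ I → ∃ u, ∀ i, χ u i = true ↔ i ∈ A := by
    intro A hA
    have : (fun n => decide (n ∈ A)) ∈ {x : ℕ → Bool | toS x ∈ I} := by
      show toS (fun n => decide (n ∈ A)) ∈ I
      have : toS (fun n => decide (n ∈ A)) = A := by ext n; simp [toS]
      rw [this]; exact hA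
    rw [← hχ] at this
    obtain ⟨u, hu⟩ := this
    exact ⟨u, fun i => by rw [hu]; simp⟩
  have hwf : WellFounded (RelT φ χ) := by
    apply relT_wf hφc hχc
    rintro ⟨y, u, h⟩
    exact hφI y (hI.down _ (hχI u) _ h)
  have : IsWellFounded _ (RelT φ χ) := ⟨hwf⟩
  -- the root
  have hroot : InT φ χ ([] : List (ℕ × ℕ)) := ⟨fun _ => (0, 0), rfl, fun i hi => by simp at hi⟩
  set γ : Ordinal.{0} := Order.succ (IsWellFounded.rank (RelT φ χ) ⟨[], hroot⟩) with hγdef
  have hγ : (Set.Iio γ).Countable := by
    have h1 : Set.Iio γ ⊆ Set.range (IsWellFounded.rank (RelT φ χ)) := by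
      intro o ho
      exact IsWellFounded.mem_range_rank_of_le (Order.lt_succ_iff.1 ho)
    exact (Set.countable_range _).mono h1
  obtain ⟨R, ζ, hRm, hζm, hgood⟩ := good_ind φ χ L hL hLu γ hγ []
  let E : Set Z := {z | G φ (L z) γ []}
  have hE : MeasurableSet E := G_meas φ L hL γ hγ []
  have hIm : MeasurableSet I := measurable_mem_ideal hm
  have hbad : ∀ i, MeasurableSet {z | {m | L z (res (ζ i z) m)} ∈ I} := by
    intro i
    have hmeas : Measurable (fun z => {m | L z (res (ζ i z) m)}) := by
      refine measurable_set_iff.2 fun m => ?_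
      rw [← measurableSet_setOfPred]
      have : {z | m ∈ {m | L z (res (ζ i z) m)}} =
          {z | ∃ l : List Bool, res (ζ i z) m = l ∧ L z l} := by
        ext z
        constructor
        · intro h; exact ⟨_, rfl, h⟩
        · rintro ⟨l, rfl, h⟩; exact h
      rw [this]
      refine m_exists fun l => m_and ?_ (hL l)
      -- `res (ζ i z) m = l`
      have hr : ∀ (m : ℕ) (l : List Bool), MeasurableSet {z | res (ζ i z) m = l} := by
        intro m
        induction m with
        | zero => intro l; exact m_const (p := ([] : List Bool) = l)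
        | succ m ihm =>
          intro l
          cases l with
          | nil =>
            have : {z | res (ζ i z) (m + 1) = []} = {_z : Z | False} := by
              ext z; simp
            rw [this]; exact m_const
          | cons a l =>
            have : {z | res (ζ i z) (m + 1) = a :: l} =
                {z | ζ i z m = a ∧ res (ζ i z) m = l} := by
              ext z
              simp only [PiNat.res_succ, List.cons.injEq]
            rw [this]
            refine m_and ?_ (ihm l)
            exact (measurable_pi_iff.1 (hζm i) m) (measurableSet_singleton a)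
      exact hr m l
    exact hmeas hIm
  let D : Set Z := {z | z ∈ E → ∀ i, {m | L z (res (ζ i z) m)} ∈ I}
  have hD : MeasurableSet D := m_imp hE (m_forall hbad)
  refine ⟨D, fun z => {m | (z ∈ E ∧ m ∈ R z) ∨ (z ∉ E ∧ m ∈ W z)}, hD, ?_, ?_, ?_⟩
  · refine measurable_set_iff.2 fun m => ?_
    rw [← measurableSet_setOfPred]
    exact m_or (m_and hE (measurableSet_setOfPred.2 (measurable_set_iff.1 hRm m)))
      (m_and (m_not hE) (measurableSet_setOfPred.2 (measurable_set_iff.1 hW m)))
  · intro z hzD
    by_cases hzE : z ∈ E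
    · have hRe : {m | (z ∈ E ∧ m ∈ R z) ∨ (z ∉ E ∧ m ∈ W z)} = R z := by
        ext m; simp [hzE]
      simp only [hRe]
      obtain ⟨g1, g2, g3⟩ := hgood z hzE
      refine ⟨?_, ?_, ?_⟩
      · intro hRI
        obtain ⟨u, hu⟩ := hχs _ hRI
        obtain ⟨ht, hle⟩ := g3 u (fun m hm => (hu m).2 hm)
        have : γ ≤ IsWellFounded.rank (RelT φ χ) ⟨[], hroot⟩ := hle
        rw [hγdef] at this
        exact absurd (Order.lt_succ _) (not_lt.2 this)
      · intro m hm
        obtain ⟨q, hq1, hq2, _⟩ := g1 m hm
        rw [← hq1]; exact hLW z q hq2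
      · intro b
        by_cases hb : ∃ i, ζ i z = b
        · obtain ⟨i, rfl⟩ := hb
          exact hI.down _ (hzD hzE i) _ (fun m hm => hm.2)
        · push Not at hb
          exact hI.fin _ (g2 b hb)
    · have hRe : {m | (z ∈ E ∧ m ∈ R z) ∨ (z ∉ E ∧ m ∈ W z)} = W z := by
        ext m; simp [hzE]
      simp only [hRe]
      refine ⟨hWI z, subset_rfl, ?_⟩
      intro b
      by_contra hcon
      apply hzE
      obtain ⟨y, hy⟩ := hφs _ hcon
      let w : ℕ → Bool × ℕ := fun n => (b n, y n)
      have hTh : ∀ n, Th φ (L z) (res w n) := by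
        intro n
        refine ⟨y, ?_, ?_⟩
        · rw [res_map, res_length]
        · intro i hi
          rw [res_length] at hi
          rw [res_map]
          have : suf (res (fun i => (w i).1) n) i = res b i := suf_res _ hi.le
          rw [this, hy i]
          constructor
          · exact fun h => h.2
          · intro h
            refine ⟨?_, h⟩
            have := hLW z _ h
            rwa [res_length] at this
      have hG : ∀ δ : Ordinal.{0}, ∀ n, G φ (L z) δ (res w n) := by
        intro δ
        induction δ using WellFoundedLT.induction with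
        | ind δ ih =>
          intro n
          rw [G_iff]
          refine ⟨hTh n, fun β hβ k => ⟨res w (max n k), res_suffix (le_max_left _ _), ?_,
            ih β hβ _⟩⟩
          rw [res_length]; exact le_max_right _ _
      exact hG γ 0
  · intro z hz
    have hz' : ¬ (z ∈ E → ∀ i, {m | L z (res (ζ i z) m)} ∈ I) := hz
    push Not at hz'
    obtain ⟨_, i, hi⟩ := hz'
    exact ⟨ζ i z, hi⟩

end Pool.Agent.Hhelper70
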