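import Mathlib
import Pool.Agent.Hhelper70.CoreThm

set_option autoImplicit false

open Set Filter Topology

namespace Pool.Agent.Hhelper70

open PiNat (res res_length res_eq_res)

lemma meas_res (m : ℕ) : ∀ l : List Bool, MeasurableSet {z : ℕ → Bool | res z m = l} := by
  induction m with
  | zero => intro l; exact m_const (p := ([] : List Bool) = l)
  | succ m ihm =>
    intro l
    cases l with
    | nil =>
      have : {z : ℕ → Bool | res z (m + 1) = []} = {_z : ℕ → Bool | False} := by
        ext z; simp
      rw [this]; exact m_const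
    | cons a l =>
      have : {z : ℕ → Bool | res z (m + 1) = a :: l} =
          {z | z m = a ∧ res z m = l} := by
        ext z
        simp only [PiNat.res_succ, List.cons.injEq]
      rw [this]
      refine m_and ?_ (ihm l)
      have hev : Measurable (fun z : ℕ → Bool => z m) := measurable_pi_apply m
      exact hev (measurableSet_singleton a)

lemma finite_res_eq {α : Type} {z z' : ℕ → α} (h : z ≠ z') : {m | res z m = res z' m}.Finite := by
  obtain ⟨j, hj⟩ : ∃ j, z j ≠ z' j := by
    by_contra hcon
    push Not at hcon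
    exact h (funext hcon)
  refine (Set.finite_le_nat j).subset ?_
  intro m hm
  have hm' : res z m = res z' m := hm
  by_contra hlt
  have hlt' : j < m := not_le.1 hlt
  exact hj (res_eq_res.1 hm' hlt')

/-- For a Borel ideal there is a Borel-parametrised maximal `I`-eventually different family. -/
theorem borel_family {I : Set (Set ℕ)} (hI : IsIdeal I)
    (hm : MeasurableSet {x : ℕ → Bool | toS x ∈ I}) :
    ∃ f : (ℕ → Bool) → (ℕ → ℕ), Measurable f ∧
      (∀ z z', z ≠ z' → {m | f z m = f z' m} ∈ I) ∧
      ∀ h : ℕ → ℕ, ∃ z, {m | f z m = h m} ∉ I := by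
  classical
  obtain ⟨c, hc, hcI⟩ := exists_blocks hI hm
  let code : List Bool → ℕ := Encodable.encode
  have hcode : ∀ {l l'}, code l = code l' → l = l' := fun h => Encodable.encode_injective h
  let W : (ℕ → Bool) → Set ℕ := fun z =>
    {i | ∃ k ∈ {k | ∃ n, code (res z n) = k}, c k ≤ i ∧ i < c (k + 1)}
  have huniq : ∀ {i k l : ℕ}, c k ≤ i → i < c (k + 1) → c l ≤ i → i < c (l + 1) → k = l := by
    intro i k l h1 h2 h3 h4
    by_contra hne
    rcases Nat.lt_or_gt_of_ne hne with h | h
    · have : c (k + 1) ≤ c l := hc.monotone h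
      omega
    · have : c (l + 1) ≤ c k := hc.monotone h
      omega
  have hWI : ∀ z, W z ∉ I := by
    intro z
    apply hcI
    have : {k | ∃ n, code (res z n) = k} = Set.range (fun n => code (res z n)) := rfl
    rw [this]
    apply Set.infinite_range_of_injective
    intro a b hab
    have := congrArg List.length (hcode hab)
    simpa using this
  have hcodem : ∀ m k, MeasurableSet {z : ℕ → Bool | code (res z m) = k} := by
    intro m k
    have : {z : ℕ → Bool | code (res z m) = k} = {z | ∃ l, res z m = l ∧ code l = k} := by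
      ext z
      constructor
      · intro h; exact ⟨_, rfl, h⟩
      · rintro ⟨l, rfl, h⟩; exact h
    rw [this]
    exact m_exists fun l => m_and (meas_res m l) m_const
  have hWm : Measurable W := by
    refine measurable_set_iff.2 fun m => ?_
    rw [← measurableSet_setOfPred]
    have : {z | m ∈ W z} = {z | ∃ k, (∃ n, code (res z n) = k) ∧ (c k ≤ m ∧ m < c (k + 1))} := by
      ext z; rfl
    rw [this]
    exact m_exists fun k => m_and (m_exists fun n => hcodem n k) m_const
  have hWfin : ∀ {z z'}, z ≠ z' → (W z ∩ W z').Finite := by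
    intro z z' hne
    have hfin := finite_res_eq hne
    have hsub : W z ∩ W z' ⊆ ⋃ n ∈ {m | res z m = res z' m}, {i | i < c (code (res z n) + 1)} := by
      rintro i ⟨⟨k, ⟨n, hn⟩, h1, h2⟩, ⟨k', ⟨n', hn'⟩, h3, h4⟩⟩
      have hk : k = k' := huniq h1 h2 h3 h4
      subst hk
      have hrr : res z n = res z' n' := hcode (hn.trans hn'.symm)
      have hnn : n = n' := by
        have := congrArg List.length hrr
        simpa using this
      subst hnn
      simp only [mem_iUnion]
      exact ⟨n, hrr, by rw [hn]; exact h2⟩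
    exact (hfin.biUnion fun n _ => Set.finite_lt_nat _).subset hsub
  -- a Borel bijection
  have hunc : ¬ Countable (ℕ → ℕ) := by
    rw [← Cardinal.mk_le_aleph0_iff]
    simpa using Cardinal.aleph0_lt_continuum
  have hpol : PolishSpace (ℕ → ℕ) := inferInstance
  let e : (ℕ → ℕ) ≃ᵐ (ℕ → Bool) := PolishSpace.measurableEquivNatBoolOfNotCountable hunc
  let H : (ℕ → Bool) → (ℕ → ℕ) := e.symm
  have hHm : Measurable H := e.symm.measurable
  have hHm' : ∀ m k, MeasurableSet {z | H z m = k} := fun m k =>
    (measurable_pi_iff.1 hHm m) (measurableSet_singleton k)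
  have hHs : ∀ h, ∃ z, H z = h := fun h => ⟨e h, e.symm_apply_apply h⟩
  let L : (ℕ → Bool) → List Bool → Prop := fun z q => q.length ∈ W z ∧ H z q.length = code q
  have hL : ∀ q, MeasurableSet {z | L z q} := by
    intro q
    refine m_and ?_ (hHm' _ _)
    exact measurableSet_setOfPred.2 (measurable_set_iff.1 hWm _)
  obtain ⟨D, R, hD, hR, hDR, hDc⟩ := core hI hm L hL
    (by
      rintro z q q' ⟨_, h1⟩ ⟨_, h2⟩ hlen
      rw [hlen] at h1
      exact hcode (h1.symm.trans h2)) W hWm hWI (fun z q h => h.1)
  let f : (ℕ → Bool) → (ℕ → ℕ) := fun z m => if z ∈ D ∧ m ∈ R z then H z m else code (res z m)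
  have hf1 : ∀ {z m}, z ∈ D → m ∈ R z → f z m = H z m := fun h1 h2 => if_pos ⟨h1, h2⟩
  have hf2 : ∀ {z m}, ¬ (z ∈ D ∧ m ∈ R z) → f z m = code (res z m) := fun h => if_neg h
  refine ⟨f, ?_, ?_, ?_⟩
  · rw [measurable_pi_iff]
    intro m
    apply Measurable.ite
    · exact m_and hD (measurableSet_setOfPred.2 (measurable_set_iff.1 hR m))
    · exact measurable_pi_iff.1 hHm m
    · exact measurable_to_nat fun z => hcodem m _
  · intro z z' hne
    have hsub : {m | f z m = f z' m} ⊆
        ({m | z ∈ D ∧ m ∈ R z ∧ L z (res z' m)} ∪ {m | z' ∈ D ∧ m ∈ R z' ∧ L z' (res z m)}) ∪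
        ((W z ∩ W z') ∪ {m | res z m = res z' m}) := by
      intro m hm
      have hm' : f z m = f z' m := hm
      by_cases h1 : z ∈ D ∧ m ∈ R z
      · have hmW : m ∈ W z := (hDR z h1.1).2.1 h1.2
        by_cases h2 : z' ∈ D ∧ m ∈ R z'
        · exact Or.inr (Or.inl ⟨hmW, (hDR z' h2.1).2.1 h2.2⟩)
        · left; left
          rw [hf1 h1.1 h1.2, hf2 h2] at hm'
          exact ⟨h1.1, h1.2, by rw [res_length]; exact hmW, by rw [res_length]; exact hm'⟩
      · by_cases h2 : z' ∈ D ∧ m ∈ R z'
        · left; right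
          have hmW : m ∈ W z' := (hDR z' h2.1).2.1 h2.2
          rw [hf2 h1, hf1 h2.1 h2.2] at hm'
          exact ⟨h2.1, h2.2, by rw [res_length]; exact hmW, by rw [res_length]; exact hm'.symm⟩
        · rw [hf2 h1, hf2 h2] at hm'
          exact Or.inr (Or.inr (hcode hm'))
    have hone : ∀ z b : ℕ → Bool, {m | z ∈ D ∧ m ∈ R z ∧ L z (res b m)} ∈ I := by
      intro z b
      by_cases hz : z ∈ D
      · exact hI.down _ ((hDR z hz).2.2 b) _ (fun m hm => hm.2)
      · exact hI.fin _ (Set.finite_empty.subset (fun m hm => absurd hm.1 hz))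
    exact hI.down _ (hI.union _ (hI.union _ (hone z z') _ (hone z' z)) _
      (hI.union _ (hI.fin _ (hWfin hne)) _ (hI.fin _ (finite_res_eq hne)))) _ hsub
  · intro h
    obtain ⟨z, hz⟩ := hHs h
    by_cases hzD : z ∈ D
    · refine ⟨z, fun hcon => (hDR z hzD).1 (hI.down _ hcon _ ?_)⟩
      intro m hm
      show f z m = h m
      rw [hf1 hzD hm, hz]
    · obtain ⟨b, hb⟩ := hDc z hzD
      refine ⟨b, fun hcon => hb ?_⟩
      by_cases hbz : b = z
      · refine hI.down _ hcon _ ?_
        rintro m ⟨_, hm⟩
        show f b m = h m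
        rw [res_length, hz] at hm
        rw [hf2 (by rw [hbz]; exact fun hh => hzD hh.1), hm]
      · refine hI.down _ (hI.union _ hcon _ (hI.fin _ (hWfin hbz))) _ ?_
        rintro m ⟨hmW, hm⟩
        rw [res_length] at hmW
        rw [res_length, hz] at hm
        by_cases hbD : b ∈ D ∧ m ∈ R b
        · exact Or.inr ⟨(hDR b hbD.1).2.1 hbD.2, hmW⟩
        · left
          show f b m = h m
          rw [hf2 hbD, hm]

end Pool.Agent.Hhelper70
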