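import Mathlib

set_option autoImplicit false

open Set Filter Topology

namespace Pool.Agent.Hhelper70

/-- `B` is the image of a closed subset of Baire space under a continuous injection. -/
def InjImage (B : Set (ℕ → ℕ)) : Prop :=
  ∃ (C : Set (ℕ → ℕ)) (c : (ℕ → ℕ) → (ℕ → ℕ)), IsClosed C ∧ ContinuousOn c C ∧
    InjOn c C ∧ c '' C = B

lemma InjImage.of_isClosed {B : Set (ℕ → ℕ)} (hB : IsClosed B) : InjImage B :=
  ⟨B, id, hB, continuousOn_id, injOn_id B, image_id B⟩

lemma InjImage.iInter {B : ℕ → Set (ℕ → ℕ)} (h : ∀ n, InjImage (B n)) : InjImage (⋂ n, B n) := by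
  choose C c hC hc hi himg using h
  let pr : ℕ → (ℕ → ℕ) → (ℕ → ℕ) := fun n w i => w (Nat.pair n i)
  have hpr : ∀ n, Continuous (pr n) := fun n => continuous_pi fun i => continuous_apply _
  let C' : Set (ℕ → ℕ) := ⋂ n, pr n ⁻¹' (C n)
  have hC' : IsClosed C' := isClosed_iInter fun n => (hC n).preimage (hpr n)
  have hcont : ∀ n, ContinuousOn (fun w => c n (pr n w)) C' := by
    intro n
    exact (hc n).comp (hpr n).continuousOn (fun w hw => mem_iInter.1 hw n)
  let E : Set (ℕ → ℕ) := ⋂ n, {w ∈ C' | c n (pr n w) = c 0 (pr 0 w)}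
  have hE : IsClosed E := by
    refine isClosed_iInter fun n => ?_
    have h2 : ContinuousOn (fun w => (c n (pr n w), c 0 (pr 0 w))) C' :=
      (hcont n).prodMk (hcont 0)
    have h3 := h2.preimage_isClosed_of_isClosed hC' (isClosed_diagonal (X := ℕ → ℕ))
    have e : {w | w ∈ C' ∧ c n (pr n w) = c 0 (pr 0 w)} =
        C' ∩ (fun w => (c n (pr n w), c 0 (pr 0 w))) ⁻¹' diagonal (ℕ → ℕ) := by
      ext w; rfl
    rw [e]; exact h3
  have hEC : E ⊆ C' := fun w hw => (mem_iInter.1 hw 0).1
  refine ⟨E, fun w => c 0 (pr 0 w), hE, (hcont 0).mono hEC, ?_, ?_⟩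
  · intro w hw v hv hwv
    have key : ∀ n, pr n w = pr n v := by
      intro n
      apply hi n (mem_iInter.1 (hEC hw) n) (mem_iInter.1 (hEC hv) n)
      rw [(mem_iInter.1 hw n).2, (mem_iInter.1 hv n).2]
      exact hwv
    funext i
    have := congrFun (key (Nat.unpair i).1) (Nat.unpair i).2
    simpa [pr] using this
  · ext y
    constructor
    · rintro ⟨w, hw, rfl⟩
      rw [mem_iInter]
      intro n
      rw [← himg n]
      exact ⟨pr n w, mem_iInter.1 (hEC hw) n, (mem_iInter.1 hw n).2⟩
    · intro hy
      have hy' : ∀ n, ∃ v ∈ C n, c n v = y := by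
        intro n
        have := mem_iInter.1 hy n
        rw [← himg n] at this
        exact this
      choose v hv hvy using hy'
      let w : ℕ → ℕ := fun i => v (Nat.unpair i).1 (Nat.unpair i).2
      have hw : ∀ n, pr n w = v n := by
        intro n; funext i; simp [pr, w]
      refine ⟨w, ?_, ?_⟩
      · rw [mem_iInter]
        intro n
        refine ⟨?_, ?_⟩
        · rw [mem_iInter]
          intro m
          show pr m w ∈ C m
          rw [hw]; exact hv m
        · rw [hw, hw, hvy, hvy]
      · show c 0 (pr 0 w) = y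
        rw [hw, hvy]

lemma InjImage.inter {A B : Set (ℕ → ℕ)} (hA : InjImage A) (hB : InjImage B) :
    InjImage (A ∩ B) := by
  have : A ∩ B = ⋂ n : ℕ, (if n = 0 then A else B) := by
    ext x
    constructor
    · rintro ⟨h1, h2⟩
      rw [mem_iInter]; intro n; split_ifs
      · exact h1
      · exact h2
    · intro h
      rw [mem_iInter] at h
      exact ⟨by simpa using h 0, by simpa using h 1⟩
  rw [this]
  apply InjImage.iInter
  intro n
  split_ifs
  · exact hA
  · exact hB

lemma InjImage.iUnion_disjoint {B : ℕ → Set (ℕ → ℕ)} (h : ∀ n, InjImage (B n))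
    (hd : ∀ m n, m ≠ n → Disjoint (B m) (B n)) : InjImage (⋃ n, B n) := by
  choose C c hC hc hi himg using h
  let tl : (ℕ → ℕ) → (ℕ → ℕ) := fun w i => w (i + 1)
  have htl : Continuous tl := continuous_pi fun i => continuous_apply _
  let E : Set (ℕ → ℕ) := {w | tl w ∈ C (w 0)}
  have hev : Continuous (fun w : ℕ → ℕ => w 0) := continuous_apply 0
  have hopen : ∀ n : ℕ, IsOpen {w : ℕ → ℕ | w 0 = n} := fun n =>
    (isOpen_discrete ({n} : Set ℕ)).preimage hev
  have hE : IsClosed E := by
    rw [← isOpen_compl_iff]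
    have : Eᶜ = ⋃ n, ({w : ℕ → ℕ | w 0 = n} ∩ tl ⁻¹' (C n)ᶜ) := by
      ext w
      simp only [E, mem_compl_iff, mem_iUnion, mem_inter_iff, mem_preimage]
      constructor
      · intro h; exact ⟨w 0, rfl, h⟩
      · rintro ⟨n, hn, h⟩
        have hn' : w 0 = n := hn
        show ¬ (tl w ∈ C (w 0))
        rw [hn']; exact h
    rw [this]
    exact isOpen_iUnion fun n => (hopen n).inter ((hC n).isOpen_compl.preimage htl)
  refine ⟨E, fun w => c (w 0) (tl w), hE, ?_, ?_, ?_⟩
  · intro w hw
    have hw' : tl w ∈ C (w 0) := hw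
    have h1 : ContinuousWithinAt (fun v => c (w 0) (tl v)) (E ∩ {v | v 0 = w 0}) w := by
      have h2 : ContinuousWithinAt (c (w 0)) (C (w 0)) (tl w) := hc (w 0) (tl w) hw'
      refine h2.comp (htl.continuousWithinAt) ?_
      rintro v ⟨hv, hv0⟩
      have hv' : tl v ∈ C (v 0) := hv
      have hv0' : v 0 = w 0 := hv0
      rw [hv0'] at hv'
      exact hv'
    have h3 : ContinuousWithinAt (fun v => c (v 0) (tl v)) (E ∩ {v | v 0 = w 0}) w := by
      refine h1.congr ?_ rfl
      rintro v ⟨_, hv0⟩
      have hv0' : v 0 = w 0 := hv0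
      show c (v 0) (tl v) = c (w 0) (tl v)
      rw [hv0']
    exact (continuousWithinAt_inter ((hopen (w 0)).mem_nhds rfl)).1 h3
  · intro w hw v hv hwv
    have hw' : tl w ∈ C (w 0) := hw
    have hv' : tl v ∈ C (v 0) := hv
    have hwv' : c (w 0) (tl w) = c (v 0) (tl v) := hwv
    have h0 : w 0 = v 0 := by
      by_contra hne
      have h1 : c (w 0) (tl w) ∈ B (w 0) := by rw [← himg]; exact ⟨_, hw', rfl⟩
      have h2 : c (v 0) (tl v) ∈ B (v 0) := by rw [← himg]; exact ⟨_, hv', rfl⟩
      rw [hwv'] at h1
      exact (Set.disjoint_left.1 (hd _ _ hne)) h1 h2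
    have htl' : tl w = tl v := by
      rw [← h0] at hv' hwv'
      exact hi _ hw' hv' hwv'
    funext i
    cases i with
    | zero => exact h0
    | succ i => exact congrFun htl' i
  · ext y
    simp only [mem_image, mem_iUnion]
    constructor
    · rintro ⟨w, hw, rfl⟩
      exact ⟨w 0, by rw [← himg]; exact ⟨_, hw, rfl⟩⟩
    · rintro ⟨n, hn⟩
      rw [← himg] at hn
      obtain ⟨v, hv, rfl⟩ := hn
      refine ⟨fun i => Nat.casesOn i n v, ?_, rfl⟩
      exact hv

/-- The σ-algebra of sets such that both they and their complements are injective images. -/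
@[instance_reducible] def injAlg : MeasurableSpace (ℕ → ℕ) where
  MeasurableSet' B := InjImage B ∧ InjImage Bᶜ
  measurableSet_empty := by
    refine ⟨InjImage.of_isClosed isClosed_empty, ?_⟩
    rw [compl_empty]; exact InjImage.of_isClosed isClosed_univ
  measurableSet_compl B h := by
    rw [compl_compl]; exact ⟨h.2, h.1⟩
  measurableSet_iUnion B h := by
    constructor
    · have : (⋃ n, B n) = ⋃ n, (B n ∩ ⋂ k : ℕ, (if k < n then (B k)ᶜ else univ)) := by
        ext x
        simp only [mem_iUnion, mem_inter_iff, mem_iInter]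
        constructor
        · rintro ⟨n, hn⟩
          classical
          have hex : ∃ n, x ∈ B n := ⟨n, hn⟩
          refine ⟨Nat.find hex, Nat.find_spec hex, fun k => ?_⟩
          split_ifs with hk
          · exact Nat.find_min hex hk
          · trivial
        · rintro ⟨n, hn, _⟩; exact ⟨n, hn⟩
      rw [this]
      apply InjImage.iUnion_disjoint
      · intro n
        refine (h n).1.inter (InjImage.iInter fun k => ?_)
        split_ifs
        · exact (h k).2
        · exact InjImage.of_isClosed isClosed_univ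
      · have aux : ∀ m n, m < n →
            Disjoint (B m ∩ ⋂ k : ℕ, (if k < m then (B k)ᶜ else univ))
              (B n ∩ ⋂ k : ℕ, (if k < n then (B k)ᶜ else univ)) := by
          intro m n hmn
          rw [Set.disjoint_left]
          rintro x ⟨hx, _⟩ ⟨_, hx2⟩
          have := mem_iInter.1 hx2 m
          rw [if_pos hmn] at this
          exact this hx
        intro m n hmn
        rcases Nat.lt_or_gt_of_ne hmn with h1 | h1
        · exact aux m n h1
        · exact (aux n m h1).symm
    · rw [compl_iUnion]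
      exact InjImage.iInter fun n => (h n).2

/-- Every Borel subset of Baire space is an injective continuous image of a closed set. -/
theorem injImage_of_measurableSet {B : Set (ℕ → ℕ)} (hB : MeasurableSet B) : InjImage B := by
  have hle : (MeasurableSpace.pi : MeasurableSpace (ℕ → ℕ)) ≤ injAlg := by
    refine iSup_le fun i => ?_
    rintro s ⟨t, _, rfl⟩
    have h1 : ∀ t : Set ℕ, IsClosed ((fun w : ℕ → ℕ => w i) ⁻¹' t) := fun t =>
      (isClosed_discrete t).preimage (continuous_apply i)
    refine ⟨InjImage.of_isClosed (h1 t), ?_⟩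
    rw [← preimage_compl]
    exact InjImage.of_isClosed (h1 tᶜ)
  exact (hle B hB).1

end Pool.Agent.Hhelper70
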