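import Mathlib
import Pool.Agent.Hhelper70.Family
import Pool.Agent.Hhelper70.InjImage

set_option autoImplicit false

open Set Filter Topology

namespace Pool.Agent.Hhelper70

open PiNat (res res_length res_eq_res)

/-- splitting `ℕ` into two pieces, the first positive -/
lemma exists_split {I : Set (Set ℕ)} (hI : IsIdeal I) :
    ∃ ξ σ : ℕ → ℕ, Function.Injective ξ ∧ Function.Injective σ ∧ (∀ i j, ξ i ≠ σ j) ∧
      (∀ n, (∃ i, ξ i = n) ∨ ∃ k, σ k = n) ∧ Set.range ξ ∉ I := by
  by_cases h : Set.range (fun i : ℕ => 2 * i) ∈ I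
  · refine ⟨fun i => 2 * i + 1, fun i => 2 * i, fun a b hab => by simpa using hab,
      fun a b hab => by simpa using hab, fun i j => by show 2 * i + 1 ≠ 2 * j; omega, fun n => ?_,
      fun h' => ?_⟩
    · rcases Nat.even_or_odd' n with ⟨k, hk | hk⟩
      · exact Or.inr ⟨k, hk.symm⟩
      · exact Or.inl ⟨k, hk.symm⟩
    · apply hI.proper
      refine hI.down _ (hI.union _ h _ h') _ ?_
      intro n _
      rcases Nat.even_or_odd' n with ⟨k, hk | hk⟩
      · exact Or.inl ⟨k, hk.symm⟩
      · exact Or.inr ⟨k, hk.symm⟩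
  · refine ⟨fun i => 2 * i, fun i => 2 * i + 1, fun a b hab => by simpa using hab,
      fun a b hab => by simpa using hab, fun i j => by show 2 * i ≠ 2 * j + 1; omega, fun n => ?_,
      h⟩
    rcases Nat.even_or_odd' n with ⟨k, hk | hk⟩
    · exact Or.inl ⟨k, hk.symm⟩
    · exact Or.inr ⟨k, hk.symm⟩

theorem closed_family {I : Set (Set ℕ)} (hI : IsIdeal I)
    (hm : MeasurableSet {x : ℕ → Bool | toS x ∈ I}) :
    ∃ ε : Set (ℕ → ℕ), IsClosed ε ∧
      (∀ f ∈ ε, ∀ g ∈ ε, f ≠ g → {n : ℕ | f n = g n} ∈ I) ∧
      (∀ h : ℕ → ℕ, ∃ f ∈ ε, {n : ℕ | f n = h n} ∉ I) := by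
  classical
  obtain ⟨ξ, σ, hξ, hσ, hξσ, hcov, hpos⟩ := exists_split hI
  -- the ideal transported to the first piece
  let I' : Set (Set ℕ) := {A | ξ '' A ∈ I}
  have hI' : IsIdeal I' := by
    refine ⟨?_, ?_, ?_, ?_⟩
    · intro A hA B hBA
      exact hI.down _ hA _ (Set.image_mono hBA)
    · intro A hA B hB
      show ξ '' (A ∪ B) ∈ I
      rw [Set.image_union]
      exact hI.union _ hA _ hB
    · intro A hA
      exact hI.fin _ (hA.image ξ)
    · intro h
      apply hpos
      rw [← Set.image_univ]; exact h
  have hm' : MeasurableSet {x : ℕ → Bool | toS x ∈ I'} := by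
    let g : (ℕ → Bool) → (ℕ → Bool) := fun x n => decide (∃ i, ξ i = n ∧ x i = true)
    have hg : Measurable g := by
      rw [measurable_pi_iff]
      intro n
      apply measurable_to_bool
      have : (fun x : ℕ → Bool => g x n) ⁻¹' {true} = {x | ∃ i, ξ i = n ∧ x i = true} := by
        ext x; simp [g]
      rw [this]
      refine m_exists fun i => m_and m_const ?_
      have hev : Measurable (fun z : ℕ → Bool => z i) := measurable_pi_apply i
      exact hev (measurableSet_singleton true)
    have : {x : ℕ → Bool | toS x ∈ I'} = g ⁻¹' {x : ℕ → Bool | toS x ∈ I} := by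
      ext x
      have hx : toS (g x) = ξ '' (toS x) := by
        ext n
        simp only [toS, g]
        constructor
        · intro h
          have h' : decide (∃ i, ξ i = n ∧ x i = true) = true := h
          rw [decide_eq_true_eq] at h'
          obtain ⟨i, hi, hxi⟩ := h'
          exact ⟨i, hxi, hi⟩
        · rintro ⟨i, hxi, hi⟩
          show decide (∃ i, ξ i = n ∧ x i = true) = true
          rw [decide_eq_true_eq]
          exact ⟨i, hi, hxi⟩
      show ξ '' (toS x) ∈ I ↔ toS (g x) ∈ I
      rw [hx]
    rw [this]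
    exact hg hm
  obtain ⟨f, hfm, hf1, hf2⟩ := borel_family hI' hm'
  -- the graph of `f` coded in Baire space
  let enc : (ℕ → Bool) → (ℕ → ℕ) := fun z n =>
    if n % 2 = 0 then (if z (n / 2) = true then 1 else 0) else f z (n / 2)
  have henc0 : ∀ z i, enc z (2 * i) = if z i = true then 1 else 0 := by
    intro z i
    simp only [enc]
    rw [if_pos (by omega)]
    have : 2 * i / 2 = i := by omega
    rw [this]
  have henc1 : ∀ z i, enc z (2 * i + 1) = f z i := by
    intro z i
    simp only [enc]
    rw [if_neg (by omega)]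
    have : (2 * i + 1) / 2 = i := by omega
    rw [this]
  have hencinj : Function.Injective enc := by
    intro z z' h
    funext i
    have := congrFun h (2 * i)
    rw [henc0, henc0] at this
    cases hz : z i <;> cases hz' : z' i <;> simp [hz, hz'] at this ⊢
  have hencm : Measurable enc := by
    rw [measurable_pi_iff]
    intro n
    by_cases hn : n % 2 = 0
    · simp only [enc, if_pos hn]
      apply Measurable.ite
      · have hev : Measurable (fun z : ℕ → Bool => z (n / 2)) := measurable_pi_apply _
        exact hev (measurableSet_singleton true)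
      · exact measurable_const
      · exact measurable_const
    · simp only [enc, if_neg hn]
      exact measurable_pi_iff.1 hfm _
  let dec : (ℕ → ℕ) → (ℕ → Bool) := fun v i => decide (v (2 * i) = 1)
  have hdecm : Measurable dec := by
    rw [measurable_pi_iff]
    intro i
    apply measurable_to_bool
    have : (fun v : ℕ → ℕ => dec v i) ⁻¹' {true} = {v | v (2 * i) = 1} := by
      ext v; simp [dec]
    rw [this]
    have hev : Measurable (fun v : ℕ → ℕ => v (2 * i)) := measurable_pi_apply _
    exact hev (measurableSet_singleton 1)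
  have hdecenc : ∀ z, dec (enc z) = z := by
    intro z; funext i
    simp only [dec, henc0]
    cases hz : z i <;> simp
  have hB : MeasurableSet (Set.range enc) := by
    have : Set.range enc = {v | ∀ n, v n = enc (dec v) n} := by
      ext v
      constructor
      · rintro ⟨z, rfl⟩ n
        rw [hdecenc]
      · intro h
        exact ⟨dec v, (funext h).symm⟩
    rw [this]
    refine m_forall fun n => ?_
    have h1 : Measurable (fun v : ℕ → ℕ => v n) := measurable_pi_apply _
    have h2 : Measurable (fun v : ℕ → ℕ => enc (dec v) n) :=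
      (measurable_pi_iff.1 hencm n).comp hdecm
    exact measurableSet_eq_fun h1 h2
  obtain ⟨C, c, hC, hc, hci, hcimg⟩ := injImage_of_measurableSet hB
  -- the closed family
  let F : (ℕ → ℕ) → (ℕ → ℕ) := fun w n =>
    if h : ∃ i, ξ i = n then c w (2 * h.choose + 1)
    else if h : ∃ k, σ k = n then Encodable.encode (res w h.choose) else 0
  have hF1 : ∀ w i, F w (ξ i) = c w (2 * i + 1) := by
    intro w i
    have h : ∃ j, ξ j = ξ i := ⟨i, rfl⟩
    have hch : h.choose = i := hξ h.choose_spec
    simp only [F]
    rw [dif_pos h, hch]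
  have hF2 : ∀ w k, F w (σ k) = Encodable.encode (res w k) := by
    intro w k
    have h1 : ¬ ∃ j, ξ j = σ k := by
      rintro ⟨j, hj⟩; exact hξσ j k hj
    have h : ∃ j, σ j = σ k := ⟨k, rfl⟩
    have hch : h.choose = k := hσ h.choose_spec
    simp only [F]
    rw [dif_neg h1, dif_pos h, hch]
  have hcz : ∀ w ∈ C, ∃ z, c w = enc z := by
    intro w hw
    have : c w ∈ Set.range enc := by rw [← hcimg]; exact ⟨w, hw, rfl⟩
    obtain ⟨z, hz⟩ := this
    exact ⟨z, hz.symm⟩
  refine ⟨F '' C, ?_, ?_, ?_⟩
  · -- closedness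
    apply IsSeqClosed.isClosed
    intro x p hx hxp
    choose w hwC hwx using hx
    have hev : ∀ m, ∀ᶠ n in atTop, x n m = p m := by
      intro m
      have := (tendsto_pi_nhds.1 hxp) m
      rw [nhds_discrete, tendsto_pure] at this
      exact this
    have hconst : ∀ k, ∃ a, ∀ᶠ n in atTop, w n k = a := by
      intro k
      obtain ⟨N, hN⟩ := eventually_atTop.1 (hev (σ (k + 1)))
      refine ⟨w N k, eventually_atTop.2 ⟨N, fun n hn => ?_⟩⟩
      have h1 := hN n hn
      have h2 := hN N le_rfl
      rw [← hwx n, hF2] at h1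
      rw [← hwx N, hF2] at h2
      have h3 : res (w n) (k + 1) = res (w N) (k + 1) :=
        Encodable.encode_injective (h1.trans h2.symm)
      exact res_eq_res.1 h3 (Nat.lt_succ_self k)
    choose v hv using hconst
    have htend : Tendsto w atTop (𝓝 v) := by
      rw [tendsto_pi_nhds]
      intro k
      rw [nhds_discrete, tendsto_pure]
      exact hv k
    have hvC : v ∈ C := hC.mem_of_tendsto htend (Eventually.of_forall hwC)
    have hctend : Tendsto (fun n => c (w n)) atTop (𝓝 (c v)) := by
      have h1 : Tendsto w atTop (𝓝[C] v) :=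
        tendsto_nhdsWithin_iff.2 ⟨htend, Eventually.of_forall hwC⟩
      exact (hc v hvC).tendsto.comp h1
    refine ⟨v, hvC, ?_⟩
    funext n
    rcases hcov n with ⟨i, rfl⟩ | ⟨k, rfl⟩
    · rw [hF1]
      have h1 : ∀ᶠ n in atTop, c (w n) (2 * i + 1) = c v (2 * i + 1) := by
        have := (tendsto_pi_nhds.1 hctend) (2 * i + 1)
        rw [nhds_discrete, tendsto_pure] at this
        exact this
      obtain ⟨n, hn1, hn2⟩ := (h1.and (hev (ξ i))).exists
      rw [← hn1, ← hn2, ← hwx n, hF1]
    · rw [hF2]
      have h1 : ∀ᶠ n in atTop, res (w n) k = res v k := by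
        have : ∀ᶠ n in atTop, ∀ m < k, w n m = v m := by
          induction k with
          | zero => exact Eventually.of_forall fun n m hm => absurd hm (Nat.not_lt_zero m)
          | succ k ih =>
            filter_upwards [ih, hv k] with n h1 h2
            intro m hm
            rcases Nat.lt_succ_iff_lt_or_eq.1 hm with h | rfl
            · exact h1 m h
            · exact h2
        filter_upwards [this] with n hn
        exact res_eq_res.2 (fun m hm => hn m hm)
      obtain ⟨n, hn1, hn2⟩ := (h1.and (hev (σ k))).exists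
      rw [← hn1, ← hn2, ← hwx n, hF2]
  · rintro _ ⟨w, hw, rfl⟩ _ ⟨w', hw', rfl⟩ hne
    have hww : w ≠ w' := fun h => hne (by rw [h])
    obtain ⟨z, hz⟩ := hcz w hw
    obtain ⟨z', hz'⟩ := hcz w' hw'
    have hzz : z ≠ z' := by
      intro h
      apply hww
      apply hci hw hw'
      rw [hz, hz', h]
    have hsub : {n : ℕ | F w n = F w' n} ⊆
        ξ '' {i | f z i = f z' i} ∪ σ '' {k | res w k = res w' k} := by
      intro n hn
      have hn' : F w n = F w' n := hn
      rcases hcov n with ⟨i, rfl⟩ | ⟨k, rfl⟩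
      · left
        rw [hF1, hF1, hz, hz', henc1, henc1] at hn'
        exact ⟨i, hn', rfl⟩
      · right
        rw [hF2, hF2] at hn'
        exact ⟨k, Encodable.encode_injective hn', rfl⟩
    refine hI.down _ (hI.union _ (hf1 z z' hzz) _ (hI.fin _ ?_)) _ hsub
    exact (finite_res_eq hww).image σ
  · intro h
    obtain ⟨z, hz⟩ := hf2 (fun i => h (ξ i))
    have hzB : enc z ∈ c '' C := by rw [hcimg]; exact ⟨z, rfl⟩
    obtain ⟨w, hwC, hw⟩ := hzB
    refine ⟨F w, ⟨w, hwC, rfl⟩, fun hcon => hz ?_⟩
    refine hI.down _ hcon _ ?_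
    rintro _ ⟨i, hi, rfl⟩
    show F w (ξ i) = h (ξ i)
    rw [hF1, hw, henc1]
    exact hi

end Pool.Agent.Hhelper70
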